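import Mathlib
import Pool.Agent.MP_538dc4_an.ab.Final

open Pool.Agent.MP_538dc4_an

namespace Pool.Agent.Results.MP_538dc4_an.Full

theorem result (u v : ℝ) (hu : 0 < u) (hu1 : u ≤ 1) (huv : u ≤ v) (F : Set E2)
    (hF : IsCircFurst u v F ∨ IsSineFurst u v F) :
    ENNReal.ofReal (min ((5 * u + v) / 3) (u + 1)) ≤ dimH F :=
  AB.main_stmt hu hu1 huv hF

end Pool.Agent.Results.MP_538dc4_an.Full
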